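import Pool.Agent.H20F.Lt
import Pool.Agent.H20F.Qu
import Pool.Agent.H20F.Cpt

/-!
# The quantum value of threefold Feige's game is less than `1/3`

The non-signalling value of the game is `1/3`. If the value of a strategy is `1/3`, then all the
inequalities of the linear programming proof of the bound `1/3` are equalities, so for every winning
pair of answers Alice's and Bob's operators have the same effect on the state. The vectors
obtained in this way are indexed by a set `S` of coordinates and a word `z`; their inner products
are nonnegative, and the vectors consistent with a question of Alice, or with a question of Bob,
add up to the state. A linear program shows that this is impossible (`LP.lean`, `Lt.lean`). The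
bound is uniform because the Gram matrices of the vectors form a compact set (`Cpt.lean`).
-/

set_option autoImplicit false

namespace Pool.Agent.Results.MP_106bcd_mp.StrictBound

open Pool.Agent.H20F

/-- There is a number `c < 1/3` such that every finite-dimensional quantum strategy for threefold
Feige's game wins with probability at most `c`. -/
theorem result : ∃ c : ℝ, c < 1 / 3 ∧ ∀ s : Strategy, s.winProb ≤ c := by
  obtain ⟨c, hc, h⟩ := cpt (fun E _ _ ψ α β hv => hv.lt)
  refine ⟨c, hc, fun s => ?_⟩
  obtain ⟨E, i1, i2, ψ, α, β, hv, hval⟩ := exists_vsys s
  rw [← hval]
  exact h E ψ α β hv

end Pool.Agent.Results.MP_106bcd_mp.StrictBound
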